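import Pool.Agent.Helper64.DT.Stmts

set_option autoImplicit false

namespace Pool.Agent.Helper64.DT

open Pool.Agent.Helper64.CT
open Pool.Agent.Helper64.HG (Ovl Model Circ IC HellyCircle ChordModel)

theorem st_D3C (h1 : CT.ST_ALS) : ST_D3C := by
  intro V G x a b c hxa hxb hxc hab hac hbc nab nac nbc hn h2 h3
  have hca : ¬ G.Adj c a := fun h => nac h.symm
  have hcb : ¬ G.Adj c b := fun h => nbc h.symm
  have fa : a ∈ Far G c := ⟨hac, hca⟩
  have fb : b ∈ Far G c := ⟨hbc, hcb⟩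
  refine ⟨hn, ⟨a, Comp.refl fa, ⟨x, ⟨hxc.symm, b, Comp.refl fb, hxb⟩, hxa.symm⟩, ?_⟩,
    ⟨b, Comp.refl fb, ⟨x, ⟨hxc.symm, a, Comp.refl fa, hxa⟩, hxb.symm⟩, ?_⟩⟩
  · by_contra hall
    push Not at hall
    have hA : Alpha G a c b := ⟨fb, hn, hall⟩
    exact (h1 V G a c b fa hA).1.2.1 h2.symm
  · by_contra hall
    push Not at hall
    have hA : Alpha G b c a := ⟨fa, fun h => hn h.symm, hall⟩
    exact (h1 V G b c a fb hA).1.2.1 h3.symm

end Pool.Agent.Helper64.DT
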